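import Pool.Agent.Y250.SS.Stm
set_option autoImplicit false

/-! Project SS, job SS-EX: measure of the exceptional lines. -/

namespace Pool.Agent.Y158.SS

open MeasureTheory Set Filter Topology
open scoped ENNReal NNReal
open Pool.Agent.Y250.SS
open Pool.Agent.Y183.PP (Poly ev dv ev_fderiv dv_apply EE QQ NN proj deg_add deg_sub deg_C deg_mul
  deg_sq ev_add ev_sub ev_C ev_X0 ev_X1 ev_pow)

/-- the graph is uniformly convex -/
theorem ge : S_GE := by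
  intro x hx
  have h0 : 0 < hh x := Real.sqrt_pos.2 (by linarith)
  have h1 : hh x ≤ 1 := by
    unfold hh
    rw [Real.sqrt_le_one]
    nlinarith [sq_nonneg x.1, sq_nonneg x.2]
  have h2 : 1 ≤ 1 / hh x := by rw [le_div_iff₀ h0]; linarith
  have hp : 0 ≤ x.1 ^ 2 / hh x ^ 3 := by positivity
  have hq : 0 ≤ x.2 ^ 2 / hh x ^ 3 := by positivity
  refine ⟨by unfold G11; linarith, by unfold G22; linarith, ?_⟩
  have e : G12 x ^ 2 = (x.1 ^ 2 / hh x ^ 3) * (x.2 ^ 2 / hh x ^ 3) := by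
    unfold G12; field_simp
  rw [e]
  unfold G11 G22
  nlinarith [mul_nonneg (sub_nonneg.2 h2) hp, mul_nonneg (sub_nonneg.2 h2) hq,
    mul_nonneg (sub_nonneg.2 h2) (sub_nonneg.2 h2)]

theorem bern {n : ℕ} (hn : 1 ≤ n) {v : ℝ} (h1 : 1 ≤ v) (h2 : v - 1 ≤ 1 / (6 * n)) :
    v ^ n ≤ 6 / 5 ∧ v ^ (n - 1) ≤ 6 / 5 := by
  have hn0 : (1 : ℝ) ≤ n := by exact_mod_cast hn
  have hx : n * (v - 1) ≤ 1 / 6 := by
    calc (n : ℝ) * (v - 1) ≤ n * (1 / (6 * n)) := by gcongr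
      _ = 1 / 6 := by field_simp
  have hx1 : v - 1 ≤ 1 / 6 := by nlinarith
  have h3 : 1 + n * (-(v - 1)) ≤ (1 + -(v - 1)) ^ n :=
    one_add_mul_le_pow (by linarith) n
  have h4 : v ^ n * (1 + -(v - 1)) ^ n ≤ 1 := by
    rw [← mul_pow]
    apply pow_le_one₀
    · apply mul_nonneg <;> linarith
    · nlinarith
  have h5 : 0 < v ^ n := by positivity
  have h6 : v ^ n ≤ 6 / 5 := by nlinarith
  refine ⟨h6, (pow_le_pow_right₀ h1 (Nat.sub_le n 1)).trans h6⟩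

theorem w_ge (u : ℝ × ℝ) : 1 ≤ w u := by unfold w; nlinarith [sq_nonneg u.1, sq_nonneg u.2]

/-- the factor -/
noncomputable def kap (n : ℕ) (u : ℝ × ℝ) : ℝ := (2 - w u) * w u ^ n

theorem kap_bd {n : ℕ} (hn : 1 ≤ n) {u : ℝ × ℝ} (hu : u ∈ U n) : 5 / 6 ≤ kap n u ∧
    kap n u ≤ 6 / 5 ∧ w u ≤ 7 / 6 := by
  have hn0 : (1 : ℝ) ≤ n := by exact_mod_cast hn
  have hu' : u.1 ^ 2 + u.2 ^ 2 < 1 / (6 * n) := hu
  have h1 := w_ge u
  have h2 : w u - 1 ≤ 1 / (6 * n) := by unfold w; linarith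
  have h3 : (1 : ℝ) / (6 * n) ≤ 1 / 6 := by
    apply one_div_le_one_div_of_le (by norm_num); linarith
  obtain ⟨h4, -⟩ := bern hn h1 h2
  have h5 : 1 ≤ w u ^ n := one_le_pow₀ h1
  unfold kap
  refine ⟨by nlinarith, by nlinarith, by linarith⟩

theorem w_fderiv (u : ℝ × ℝ) : HasFDerivAt w (lf (2 * u.1) (2 * u.2)) u := by
  have h1 : HasFDerivAt (fun u : ℝ × ℝ => u.1) (ContinuousLinearMap.fst ℝ ℝ ℝ) u := hasFDerivAt_fst
  have h2 : HasFDerivAt (fun u : ℝ × ℝ => u.2) (ContinuousLinearMap.snd ℝ ℝ ℝ) u := hasFDerivAt_snd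
  have h3 := ((h1.pow 2).const_add 1).add (h2.pow 2)
  refine (HasFDerivAt.congr_fderiv (f := w) h3 ?_)
  apply ContinuousLinearMap.ext
  intro v
  simp [lf]

theorem kap_fderiv (n : ℕ) (u : ℝ × ℝ) : HasFDerivAt (kap n)
    ((n * (2 - w u) * w u ^ (n - 1) - w u ^ n) • lf (2 * u.1) (2 * u.2)) u := by
  have hw := w_fderiv u
  have h := (hw.const_sub 2).mul (hw.pow n)
  refine (HasFDerivAt.congr_fderiv (f := kap n) h ?_)
  apply ContinuousLinearMap.ext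
  intro v
  simp only [lf, add_apply, smul_apply,
    neg_apply, ContinuousLinearMap.coe_fst', ContinuousLinearMap.coe_snd',
    smul_eq_mul, nsmul_eq_mul]
  ring

theorem dkap_bd {n : ℕ} (hn : 1 ≤ n) {u : ℝ × ℝ} (hu : u ∈ U n) (a b : ℝ) :
    ((n * (2 - w u) * w u ^ (n - 1) - w u ^ n) * (2 * u.1 * a + 2 * u.2 * b)) ^ 2 ≤
      n ^ 2 * (a ^ 2 + b ^ 2) := by
  have hn0 : (1 : ℝ) ≤ n := by exact_mod_cast hn
  have hu' : u.1 ^ 2 + u.2 ^ 2 < 1 / (6 * n) := hu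
  have h1 := w_ge u
  have h2 : w u - 1 ≤ 1 / (6 * n) := by unfold w; linarith
  have h3 : (1 : ℝ) / (6 * n) ≤ 1 / 6 := by
    apply one_div_le_one_div_of_le (by norm_num); linarith
  obtain ⟨h4, h5⟩ := bern hn h1 h2
  have h6 : 0 ≤ w u ^ n := by positivity
  have h7 : 0 ≤ w u ^ (n - 1) := by positivity
  have h8 : 0 ≤ n * (2 - w u) * w u ^ (n - 1) := by
    have : 0 ≤ 2 - w u := by linarith
    positivity
  have h9 : n * (2 - w u) * w u ^ (n - 1) ≤ 6 / 5 * n := by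
    calc n * (2 - w u) * w u ^ (n - 1) ≤ n * 1 * (6 / 5) := by gcongr; linarith
      _ = 6 / 5 * n := by ring
  have h10 : |n * (2 - w u) * w u ^ (n - 1) - w u ^ n| ≤ 6 / 5 * n := by
    rw [abs_le]
    constructor <;> nlinarith
  have h11 : (n * (2 - w u) * w u ^ (n - 1) - w u ^ n) ^ 2 ≤ (6 / 5 * n) ^ 2 :=
    sq_le_sq' (abs_le.1 h10).1 (abs_le.1 h10).2
  have h12 : (2 * u.1 * a + 2 * u.2 * b) ^ 2 ≤ 4 * (u.1 ^ 2 + u.2 ^ 2) * (a ^ 2 + b ^ 2) := by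
    nlinarith [sq_nonneg (u.1 * b - u.2 * a)]
  have h13 : (2 * u.1 * a + 2 * u.2 * b) ^ 2 ≤ 4 * (1 / 6) * (a ^ 2 + b ^ 2) := by
    refine h12.trans ?_
    gcongr
    linarith
  rw [mul_pow]
  calc (n * (2 - w u) * w u ^ (n - 1) - w u ^ n) ^ 2 * (2 * u.1 * a + 2 * u.2 * b) ^ 2 ≤
      (6 / 5 * n) ^ 2 * (4 * (1 / 6) * (a ^ 2 + b ^ 2)) := by gcongr
    _ = 24 / 25 * (n ^ 2 * (a ^ 2 + b ^ 2)) := by ring
    _ ≤ _ := by
      have : 0 ≤ (n : ℝ) ^ 2 * (a ^ 2 + b ^ 2) := by positivity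
      linarith

/-- the product rule -/
theorem dv_eq (hXD : S_XD) {n : ℕ} {p : Poly} {G : ℝ × ℝ → ℝ} {A B : ℝ} {u : ℝ × ℝ}
    (hu : u.1 ^ 2 + u.2 ^ 2 < 1)
    (hp : ∀ v : ℝ × ℝ, v.1 ^ 2 + v.2 ^ 2 < 1 → ev p v = (2 - w v) * w v ^ n * G (X v))
    (hG : HasFDerivAt G (lf A B) (X u)) (a b : ℝ) :
    ev (MvPolynomial.pderiv 0 p) u * a + ev (MvPolynomial.pderiv 1 p) u * b =
      kap n u * (A * (X11 u * a + X12 u * b) + B * (X12 u * a + X22 u * b)) +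
      (n * (2 - w u) * w u ^ (n - 1) - w u ^ n) * (2 * u.1 * a + 2 * u.2 * b) * G (X u) := by
  have h1 := (kap_fderiv n u).mul (hG.comp u (hXD u))
  have h2 : (fun v => kap n v * (G ∘ X) v) =ᶠ[𝓝 u] ev p := by
    have ho : IsOpen {v : ℝ × ℝ | v.1 ^ 2 + v.2 ^ 2 < 1} :=
      isOpen_lt (by fun_prop) continuous_const
    filter_upwards [ho.mem_nhds hu] with v hv
    rw [hp v hv]
    rfl
  have h3 := h1.congr_of_eventuallyEq h2.symm
  have h4 := h3.unique (ev_fderiv p u)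
  have h5 := congrArg (fun L : ℝ × ℝ →L[ℝ] ℝ => L (a, b)) h4
  simp only [dv_apply] at h5
  rw [← h5]
  simp only [lf, add_apply, smul_apply,
    ContinuousLinearMap.coe_fst', ContinuousLinearMap.coe_snd', ContinuousLinearMap.comp_apply,
    ContinuousLinearMap.prod_apply, smul_eq_mul, Function.comp_apply]
  ring

theorem half_sq (x y : ℝ) : x ^ 2 / 2 - y ^ 2 ≤ (x + y) ^ 2 := by
  nlinarith [sq_nonneg (x + 2 * y)]

theorem quad {κ δ s n lam A1 A2 a1 a2 V : ℝ} (hκ : 5 / 6 ≤ κ) (hV : 0 ≤ V)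
    (hA : s ^ 2 * V ≤ A1 ^ 2 + A2 ^ 2) (hδ : δ ^ 2 ≤ n ^ 2 * V) (h1 : a1 ^ 2 ≤ (18 / 5 * lam) ^ 2)
    (h2 : a2 ^ 2 ≤ (18 / 5 * lam) ^ 2) (hn : n ^ 2 * lam ^ 2 ≤ s ^ 2 / 10000) :
    (s / 2) ^ 2 * V ≤ (κ * A1 + δ * a1) ^ 2 + (κ * A2 + δ * a2) ^ 2 := by
  have e1 := half_sq (κ * A1) (δ * a1)
  have e2 := half_sq (κ * A2) (δ * a2)
  have e3 : 25 / 36 ≤ κ ^ 2 := by nlinarith
  have e4 : 25 / 36 * (s ^ 2 * V) ≤ κ ^ 2 * (A1 ^ 2 + A2 ^ 2) := by gcongr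
  have e5 : δ ^ 2 * (a1 ^ 2 + a2 ^ 2) ≤ (n ^ 2 * V) * ((18 / 5 * lam) ^ 2 + (18 / 5 * lam) ^ 2) := by
    gcongr
  have e6 : (n ^ 2 * V) * ((18 / 5 * lam) ^ 2 + (18 / 5 * lam) ^ 2) =
      648 / 25 * (n ^ 2 * lam ^ 2) * V := by ring
  have e7 : 648 / 25 * (n ^ 2 * lam ^ 2) * V ≤ 648 / 25 * (s ^ 2 / 10000) * V := by gcongr
  have e8 : 0 ≤ s ^ 2 * V := by positivity
  nlinarith

/-- the defining polynomials -/
noncomputable def rr (n : ℕ) (lam : ℝ) (p q p1 p2 : Poly) : Fin 7 → Poly :=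
  ![MvPolynomial.C (3 * lam) - p, MvPolynomial.C (3 * lam) + p, MvPolynomial.C (3 * lam) - q,
    MvPolynomial.C (3 * lam) + q,
    (MvPolynomial.C (1 / (6 * (n : ℝ))) : Poly) - (MvPolynomial.X 0 : Poly) ^ 2 -
      (MvPolynomial.X 1 : Poly) ^ 2, p1, p2]

theorem mem_EE (n : ℕ) (lam : ℝ) (p q p1 p2 : Poly) (z : ℝ × ℝ) : z ∈ EE (rr n lam p q p1 p2) ↔
    |ev p z| < 3 * lam ∧ |ev q z| < 3 * lam ∧ z ∈ U n ∧ 0 < ev p1 z ∧ 0 < ev p2 z := by
  unfold EE U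
  simp only [mem_ofPred_eq]
  constructor
  · intro h
    have h0 := h 0
    have h1 := h 1
    have h2 := h 2
    have h3 := h 3
    have h4 := h 4
    have h5 := h 5
    have h6 := h 6
    simp only [rr, Matrix.cons_val, ev_sub, ev_add, ev_C, ev_X0, ev_X1, ev_pow]
      at h0 h1 h2 h3 h4 h5 h6
    refine ⟨?_, ?_, by linarith, h5, h6⟩ <;> rw [abs_lt] <;> constructor <;> linarith
  · rintro ⟨h1, h2, h3, h4, h5⟩
    rw [abs_lt] at h1 h2
    intro i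
    fin_cases i
    · show 0 < ev (MvPolynomial.C (3 * lam) - p) z
      rw [ev_sub, ev_C]; linarith
    · show 0 < ev (MvPolynomial.C (3 * lam) + p) z
      rw [ev_add, ev_C]; linarith
    · show 0 < ev (MvPolynomial.C (3 * lam) - q) z
      rw [ev_sub, ev_C]; linarith
    · show 0 < ev (MvPolynomial.C (3 * lam) + q) z
      rw [ev_add, ev_C]; linarith
    · show 0 < ev ((MvPolynomial.C (1 / (6 * (n : ℝ))) : Poly) - (MvPolynomial.X 0 : Poly) ^ 2 -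
        (MvPolynomial.X 1 : Poly) ^ 2) z
      rw [ev_sub, ev_sub, ev_pow, ev_pow, ev_C, ev_X0, ev_X1]; linarith
    · exact h4
    · exact h5

theorem deg_rr {n : ℕ} (lam : ℝ) {p q p1 p2 : Poly} (hp : p.totalDegree ≤ 2 * n + 2)
    (hq : q.totalDegree ≤ 2 * n + 2) (h1 : p1.totalDegree ≤ 8 * n + 24)
    (h2 : p2.totalDegree ≤ 8 * n + 24) : (QQ (rr n lam p q p1 p2)).totalDegree ≤ 24 * n + 60 := by
  unfold QQ
  have hX0 : (MvPolynomial.X 0 : Poly).totalDegree ≤ 1 := by rw [MvPolynomial.totalDegree_X]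
  have hX1 : (MvPolynomial.X 1 : Poly).totalDegree ≤ 1 := by rw [MvPolynomial.totalDegree_X]
  rw [Fin.prod_univ_seven]
  have h := deg_mul (deg_mul (deg_mul (deg_mul (deg_mul (deg_mul
    (deg_sub (deg_C (3 * lam) (2 * n + 2)) hp) (deg_add (deg_C (3 * lam) (2 * n + 2)) hp))
    (deg_sub (deg_C (3 * lam) (2 * n + 2)) hq)) (deg_add (deg_C (3 * lam) (2 * n + 2)) hq))
    (deg_sub (deg_sub (deg_C (1 / (6 * (n : ℝ))) 2) (deg_sq hX0)) (deg_sq hX1))) h1) h2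
  refine le_trans (le_of_eq rfl) (h.trans ?_)
  omega

theorem ex (hND : S_ND) (hGR : S_GR) (hXD : S_XD) (hXF : S_XF) (hGP : S_GP) (hRP : S_RP) :
    S_EX := by
  refine ⟨48 * 169 ^ 4, by positivity, fun n P s lam hn hP hlam hls => ?_⟩
  have hn0 : (1 : ℝ) ≤ n := by exact_mod_cast hn
  have hs : 0 < s := by
    have : 0 < s / (100 * n) := lt_of_lt_of_le hlam hls
    by_contra h0
    push Not at h0
    have : s / (100 * n) ≤ 0 := div_nonpos_of_nonpos_of_nonneg h0 (by positivity)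
    linarith
  have hnl : (n : ℝ) ^ 2 * lam ^ 2 ≤ s ^ 2 / 10000 := by
    have h1 : n * lam ≤ s / 100 := by
      calc n * lam ≤ n * (s / (100 * n)) := by gcongr
        _ = s / 100 := by field_simp
    have h2 : (n * lam) ^ 2 ≤ (s / 100) ^ 2 := by gcongr
    nlinarith
  obtain ⟨p, q, hp, hq, hpq⟩ := hGP P n hP
  obtain ⟨p1, p2, hp1, hp2, hp12⟩ := hRP P n s hP
  have hUd : ∀ z ∈ U n, z.1 ^ 2 + z.2 ^ 2 < 1 := by
    intro z hz
    have h1 : z.1 ^ 2 + z.2 ^ 2 < 1 / (6 * n) := hz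
    have h3 : (1 : ℝ) / (6 * n) ≤ 1 / 6 := by
      apply one_div_le_one_div_of_le (by norm_num); linarith
    linarith
  have hsub : {b : ℝ | ∃ a : ℝ, (a, b) ∈ U n ∧ |g1 P (X (a, b))| < 2 * lam ∧
      |g2 P (X (a, b))| < 2 * lam ∧ X (a, b) ∈ RG P s} ⊆
      {y : ℝ | ∃ x : ℝ, (x, y) ∈ EE (rr n lam p q p1 p2)} := by
    rintro b ⟨a, hU, h1, h2, h3⟩
    refine ⟨a, ?_⟩
    rw [mem_EE]
    obtain ⟨k1, k2, -⟩ := kap_bd hn hU
    have hd := hUd _ hU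
    obtain ⟨e1, e2⟩ := hpq (a, b) hd
    obtain ⟨f1, f2⟩ := (hp12 (a, b) hd).1 h3
    refine ⟨?_, ?_, hU, f1, f2⟩
    · rw [e1]
      change |kap n (a, b) * g1 P (X (a, b))| < 3 * lam
      rw [abs_mul, abs_of_pos (by linarith : 0 < kap n (a, b))]
      nlinarith [abs_nonneg (g1 P (X (a, b)))]
    · rw [e2]
      change |kap n (a, b) * g2 P (X (a, b))| < 3 * lam
      rw [abs_mul, abs_of_pos (by linarith : 0 < kap n (a, b))]
      nlinarith [abs_nonneg (g2 P (X (a, b)))]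
  refine (measure_mono hsub).trans ?_
  have hproj := proj (rr n lam p q p1 p2) p q (24 * n + 60) (by omega) (hp.trans (by omega))
    (hq.trans (by omega)) (deg_rr lam hp hq hp1 hp2) (s / 2) (3 * lam) (by positivity)
    (by positivity) (by
      intro z hz
      rw [mem_EE] at hz
      obtain ⟨h1, h2, hU, h4, h5⟩ := hz
      have hd := hUd _ hU
      obtain ⟨k1, k2, -⟩ := kap_bd hn hU
      have hXz : X z ∈ RG P s := (hp12 z hd).2 ⟨h4, h5⟩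
      have hXd := hXF.2.1 z hd
      refine ⟨?_, h1, h2, fun a b => ?_⟩
      · rw [abs_lt]
        constructor <;> nlinarith [sq_nonneg z.2]
      obtain ⟨-, g1', g2'⟩ := hGR P (X z) hXd
      rw [dv_eq hXD hd (fun v hv => (hpq v hv).1) g1' a b,
        dv_eq hXD hd (fun v hv => (hpq v hv).2) g2' a b]
      obtain ⟨e1, e2⟩ := hpq z hd
      have hb : ∀ (e g : ℝ), e = (2 - w z) * w z ^ n * g → |e| < 3 * lam →
          g ^ 2 ≤ (18 / 5 * lam) ^ 2 := by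
        intro e g he hlt
        have h6 : e = kap n z * g := he
        rw [h6, abs_mul, abs_of_pos (by linarith : 0 < kap n z)] at hlt
        have h7 : |g| ≤ 18 / 5 * lam := by nlinarith [abs_nonneg g]
        rw [← sq_abs g]
        gcongr
      refine quad (n := n) (lam := lam) k1 (by positivity) ?_ (dkap_bd hn hU a b) (hb _ _ e1 h1)
        (hb _ _ e2 h2) hnl
      refine le_trans ?_ (hND s _ _ _ _ _ _ hs (ge _ hXd) hXz _ _)
      exact mul_le_mul_of_nonneg_left (hXF.2.2.1 n hn z hU a b) (sq_nonneg s))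
  refine hproj.trans (ENNReal.ofReal_le_ofReal ?_)
  have hNN : (NN (24 * n + 60) : ℝ) ≤ (169 * n) ^ 4 := by
    unfold NN
    push_cast
    have : (1 : ℝ) + 2 * (24 * n + 60) ≤ 169 * n := by linarith
    calc ((1 + 2 * (24 * (n : ℝ) + 60)) ^ 2) ^ 2 ≤ ((169 * n) ^ 2) ^ 2 := by gcongr
      _ = _ := by ring
  have e : 8 * (NN (24 * n + 60) : ℝ) * (3 * lam) / (s / 2) =
      48 * (NN (24 * n + 60) : ℝ) * lam / s := by
    field_simp
    ring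
  rw [e]
  refine div_le_div_of_nonneg_right (mul_le_mul_of_nonneg_right ?_ hlam.le) hs.le
  calc 48 * (NN (24 * n + 60) : ℝ) ≤ 48 * (169 * n) ^ 4 := by gcongr
    _ = _ := by ring

end Pool.Agent.Y158.SS
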